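import Mathlib

/-!
# MP_993e82_nt : pseudo-automorphisms of a cubic norm form

We determine all pairs `(f, h)` of functions `ℤ → ℂ` with
`h (T x y z) = T (f x) (f y) (f z)` for all integers `x, y, z`.
-/

set_option linter.all false

namespace Pool.Agent.Results.MP_993e82_nt.Classification

/-- The cubic form `T`, the norm form of `ℚ(α)`, `α³ - 3α + 1 = 0`, in the basis `1, α, α²-2`. -/
def T {R : Type} [CommRing R] (x y z : R) : R :=
  x ^ 3 - 3 * x * y ^ 2 - 3 * x * z ^ 2 + 3 * x * y * z - y ^ 3 + 6 * y ^ 2 * z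
    - 3 * y * z ^ 2 - z ^ 3

/-- `T` is invariant under the Galois action `α ↦ α'`. -/
theorem T_galois (x y z : ℤ) : T x (-z) (y - z) = T x y z := by
  simp only [T]; ring

/-- `T` is invariant under multiplication by the unit `-α`. -/
theorem T_unit (x y z : ℤ) : T (z - 2 * y) (-x - z) (-y) = T x y z := by
  simp only [T]; ring

/-- The main step: a function `f` for which `T (f x) (f y) (f z)` depends only on `T x y z` is
constant or linear. -/
theorem classify (f : ℤ → ℂ)
    (hf : ∀ x y z x' y' z' : ℤ, T x y z = T x' y' z' →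
      T (f x) (f y) (f z) = T (f x') (f y') (f z')) :
    (∃ c : ℂ, ∀ n, f n = c) ∨ (∃ c : ℂ, ∀ n : ℤ, f n = c * n) := by
  by_cases hc : ∀ n, f n = f 0
  · exact Or.inl ⟨f 0, hc⟩
  right
  push Not at hc
  obtain ⟨n0, hn0⟩ := hc
  have hg : ∀ x y z, T (f x) (f y) (f z) = T (f x) (f (-z)) (f (y - z)) :=
    fun x y z => hf _ _ _ _ _ _ (T_galois x y z).symm
  -- the quadratic and the cubic relation
  have hQ : ∀ y z, f y ^ 2 - f y * f z + f z ^ 2 =
      f (-z) ^ 2 - f (-z) * f (y - z) + f (y - z) ^ 2 := by
    intro y z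
    have h1 := hg 0 y z
    have h2 := hg n0 y z
    simp only [T] at h1 h2
    have h3 : (f n0 - f 0) * ((f y ^ 2 - f y * f z + f z ^ 2) -
        (f (-z) ^ 2 - f (-z) * f (y - z) + f (y - z) ^ 2)) = 0 := by
      linear_combination (1 / 3) * h1 - (1 / 3) * h2
    rcases mul_eq_zero.mp h3 with h | h
    · exact absurd (sub_eq_zero.mp h) hn0
    · exact sub_eq_zero.mp h
  have hC : ∀ y z, - f y ^ 3 + 6 * f y ^ 2 * f z - 3 * f y * f z ^ 2 - f z ^ 3 =
      - f (-z) ^ 3 + 6 * f (-z) ^ 2 * f (y - z) - 3 * f (-z) * f (y - z) ^ 2 - f (y - z) ^ 3 := by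
    intro y z
    have h1 := hg 0 y z
    have h2 := hQ y z
    simp only [T] at h1
    linear_combination h1 + 3 * f 0 * h2
  -- `f 0 = 0`
  have h0 : f 0 = 0 := by
    by_contra ha
    have hval : ∀ y, f y = 0 ∨ f y = f 0 := by
      intro y
      have h1 := hC y 0
      simp only [neg_zero, sub_zero] at h1
      have h2 : f y * (f 0 * (f y - f 0)) = 0 := by linear_combination (1 / 9) * h1
      rcases mul_eq_zero.mp h2 with h | h
      · exact Or.inl h
      · rcases mul_eq_zero.mp h with h | h
        · exact absurd h ha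
        · exact Or.inr (sub_eq_zero.mp h)
    have hn : f n0 = 0 := (hval n0).resolve_right hn0
    have h1 := hQ n0 n0
    rw [sub_self, hn] at h1
    rcases hval (-n0) with h | h
    · rw [h] at h1
      apply ha
      have : f 0 ^ 2 = 0 := by linear_combination -h1
      exact pow_eq_zero_iff (two_ne_zero) |>.mp this
    · rw [h] at h1
      apply ha
      have : f 0 ^ 2 = 0 := by linear_combination -h1
      exact pow_eq_zero_iff (two_ne_zero) |>.mp this
  -- `f` is odd
  have hodd : ∀ z, f (-z) = - f z := by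
    intro z
    have h1 := hQ 0 z
    have h2 := hC 0 z
    simp only [zero_sub, h0] at h1 h2
    have h3 : (f (-z) - f z) * (f (-z) + f z) = 0 := by linear_combination -h1
    rcases mul_eq_zero.mp h3 with h | h
    · have h4 : f (-z) = f z := sub_eq_zero.mp h
      rw [h4] at h2 ⊢
      have h5 : f z ^ 3 = 0 := by linear_combination -(1 / 2) * h2
      have h6 : f z = 0 := pow_eq_zero_iff (three_ne_zero) |>.mp h5
      rw [h6]; simp
    · linear_combination h
  set t := f 1 with ht
  -- the one-step alternative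
  have hstep : ∀ y, f (y + 1) = f y + t ∨
      (f (y + 1) = - f y ∧ (f y - t) * ((2 * f y + t) * (f y + 2 * t)) = 0) := by
    intro y
    have h1 := hQ y (-1)
    have h2 := hC y (-1)
    have e1 : f (-1) = - t := hodd 1
    simp only [neg_neg, sub_neg_eq_add, e1, ← ht] at h1 h2
    have h3 : (f y + f (y + 1)) * (f y - f (y + 1) + t) = 0 := by linear_combination h1
    rcases mul_eq_zero.mp h3 with h | h
    · right
      have h4 : f (y + 1) = - f y := by linear_combination h
      refine ⟨h4, ?_⟩
      rw [h4] at h2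
      linear_combination -h2
    · left
      linear_combination -h
  have htne : t ≠ 0 := by
    intro h
    have hs : ∀ y, f (y + 1) = f y := by
      intro y
      rcases hstep y with h1 | ⟨h1, h2⟩
      · rw [h1, h, add_zero]
      · rw [h] at h2
        have h3 : f y ^ 3 = 0 := by linear_combination (1 / 2) * h2
        have h4 : f y = 0 := pow_eq_zero_iff (three_ne_zero) |>.mp h3
        rw [h1, h4]; simp
    have hnat : ∀ n : ℕ, f n = 0 := by
      intro n
      induction n with
      | zero => simpa using h0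
      | succ n ih =>
        push_cast
        rw [hs, ih]
    apply hn0
    rw [h0]
    rcases Int.eq_nat_or_neg n0 with ⟨k, hk | hk⟩
    · rw [hk]; exact hnat k
    · rw [hk, hodd, hnat k]; simp
  have h2 : f 2 = 2 * t := by
    rcases hstep 1 with h | ⟨h, -⟩
    · have : f 2 = f 1 + t := by simpa using h
      rw [this, ← ht]; ring
    · exfalso
      have e2 : f 2 = - t := by simpa using h
      have e3 : f 3 = 0 := by
        rcases hstep 2 with h | ⟨h, h'⟩
        · have : f 3 = f 2 + t := by simpa using h
          rw [this, e2]; ring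
        · rw [e2] at h'
          exfalso
          apply htne
          have : t ^ 3 = 0 := by linear_combination (1 / 2) * h'
          exact pow_eq_zero_iff (three_ne_zero) |>.mp this
      have hu := hf _ _ _ _ _ _ (T_unit 1 1 (-1))
      norm_num at hu
      have em3 : f (-3) = 0 := by rw [hodd, e3]; simp
      have em1 : f (-1) = - t := hodd 1
      rw [em3, em1, h0, ← ht] at hu
      simp only [T] at hu
      apply htne
      have : t ^ 3 = 0 := by linear_combination (1 / 18) * hu
      exact pow_eq_zero_iff (three_ne_zero) |>.mp this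
  have hnat : ∀ n : ℕ, f (n + 2 : ℤ) = t * (n + 2) := by
    intro n
    induction n with
    | zero => 
      simp only [Nat.cast_zero, zero_add]
      rw [h2]; ring
    | succ n ih =>
      have e : ((n + 1 : ℕ) : ℤ) + 2 = (n + 2 : ℤ) + 1 := by push_cast; ring
      rw [e]
      rcases hstep (n + 2) with h | ⟨h, h'⟩
      · rw [h, ih]; push_cast; ring
      · exfalso
        rw [ih] at h'
        have h3 : t ^ 3 * (((n : ℂ) + 1) * ((2 * n + 5) * (n + 4))) = 0 := by
          linear_combination h'
        have h4 : t ^ 3 ≠ 0 := pow_ne_zero 3 htne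
        have h5 : ((n : ℂ) + 1) * ((2 * n + 5) * (n + 4)) ≠ 0 := by
          have : (((n + 1) * ((2 * n + 5) * (n + 4)) : ℕ) : ℂ) ≠ 0 := by
            rw [Nat.cast_ne_zero]; positivity
          push_cast at this
          exact this
        exact (mul_ne_zero h4 h5) h3
  have hnat' : ∀ n : ℕ, f (n : ℤ) = t * n := by
    intro n
    match n with
    | 0 => simpa using h0
    | 1 => simp [ht]
    | (k + 2) =>
      have := hnat k
      push_cast at this ⊢
      exact this
  refine ⟨t, ?_⟩
  intro n
  rcases Int.eq_nat_or_neg n with ⟨k, hk | hk⟩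
  · rw [hk]; simpa using hnat' k
  · rw [hk, hodd, hnat' k]; push_cast; ring

/-- **Answer to Q1 of MP_993e82_nt.**  A pair `(f, h)` of functions `ℤ → ℂ` satisfies
`h (T x y z) = T (f x) (f y) (f z)` for all integers `x, y, z` if and only if, for some complex
number `c`, either `f n = c * n` for all `n` and `h m = c ^ 3 * m` for all `m` in the value set of
`T`, or `f n = c` for all `n` and `h m = - c ^ 3` for all `m` in the value set of `T`. -/
theorem result (f h : ℤ → ℂ) :
    (∀ x y z : ℤ, h (T x y z) = T (f x) (f y) (f z)) ↔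
      ((∃ c : ℂ, (∀ n : ℤ, f n = c * n) ∧
          ∀ m : ℤ, (∃ x y z : ℤ, T x y z = m) → h m = c ^ 3 * m) ∨
       (∃ c : ℂ, (∀ n : ℤ, f n = c) ∧
          ∀ m : ℤ, (∃ x y z : ℤ, T x y z = m) → h m = - c ^ 3)) := by
  constructor
  · intro hfh
    have hf : ∀ x y z x' y' z' : ℤ, T x y z = T x' y' z' →
        T (f x) (f y) (f z) = T (f x') (f y') (f z') := by
      intro x y z x' y' z' e
      rw [← hfh, ← hfh, e]
    rcases classify f hf with ⟨c, hc⟩ | ⟨c, hc⟩
    · right
      refine ⟨c, hc, ?_⟩
      rintro m ⟨x, y, z, rfl⟩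
      rw [hfh, hc, hc, hc]
      simp only [T]; ring
    · left
      refine ⟨c, hc, ?_⟩
      rintro m ⟨x, y, z, rfl⟩
      rw [hfh, hc, hc, hc]
      simp only [T]; push_cast; ring
  · rintro (⟨c, hc, hh⟩ | ⟨c, hc, hh⟩) x y z
    · rw [hh _ ⟨x, y, z, rfl⟩, hc, hc, hc]
      simp only [T]; push_cast; ring
    · rw [hh _ ⟨x, y, z, rfl⟩, hc, hc, hc]
      simp only [T]; ring

end Pool.Agent.Results.MP_993e82_nt.Classification
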